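import Pool.Agent.Lib.MP_b5021c_nt.OF.H29.Prp

/-!
# Board b5, chapter OF, row OF_1: `u ≥ 2` at a drop free load of type B
-/

namespace Pool.Agent.B5.OFH29

open scoped LaurentPolynomial
open Polynomial Pool.Agent.B5
open Pool.Agent.MP_b5021c_nt (nz)

set_option linter.unusedSectionVars false

theorem fej_one (sg : ℤ) : fej sg 1 = 1 := by
  unfold fej
  simp

/-- A mass with `t_1 = t_0 - 1` is a Fejér kernel. -/
theorem fej_of (hFj : FjtS) (hNr : Nr3S) {L : Type} [AddCommGroup L] [Module.Free ℤ L]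
    [Module.Finite ℤ L] (F : AO ℤ L) (hF : NnT F) {t : RO ℤ} (ht : F.coeff 0 = t) (h0 : t ≠ 0)
    (hn : NnR t) (h1 : t.coeff 1 = t.coeff 0 - 1) : ∃ m : ℕ, 1 ≤ m ∧ t = fej 1 m := by
  obtain ⟨h2, -⟩ := SFH27.nr_int hNr h0 hn
  obtain ⟨k, hk⟩ : ∃ k : ℕ, t.coeff 0 = k := ⟨(t.coeff 0).toNat, by omega⟩
  by_cases hk1 : k = 1
  · refine ⟨1, le_refl 1, ?_⟩
    rw [fej_one]
    rcases (hNr ℤ t h0 hn).2.2 with h3 | h3
    · exact h3
    · exfalso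
      rw [SFH27.emb_int, Complex.intCast_re, hk, hk1] at h3
      norm_num at h3
  · refine ⟨k, by omega, ?_⟩
    have h3 : F = cst (fej 1 k) := by
      apply hFj _ F k 1 hF (by omega) (Or.inl rfl)
      · rw [ht, hk]
      · rw [ht, h1, hk, one_mul]
    rw [← ht, h3, cst, AddMonoidAlgebra.coeff_single, Finsupp.single_eq_same]

theorem of1_core (hOd : OdtS) (hOn : On1S) (hOt : On2S) (hNu : OnuS) (hBg : BgrS) (hQs : QsgS)
    (hNd : Nd3S) (hMm : MmulS) (hFj : FjtS) (hNr : Nr3S) (hNb : NbzS) (hFD : FDS)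
    {P L : Type} [Fintype P] [DecidableEq P] [AddCommGroup L]
    [Module.Free ℤ L] [Module.Finite ℤ L] (phi : L →+ (P → ℤ)) (D : AO ℤ L) (S : L) (q f : ℤ[X])
    (e : (RO ℤ)ˣ) (a : ℝ) (j : ℕ) (hFP : FP phi D) (hS : Ray D S) (hR : RN D S q f e a)
    (ha2 : a ≤ 1 / 2) (hu : 2 ≤ f.coeff 0) (hj : 2 ≤ j) (hrk : Module.finrank ℤ L = 2 * j + 1)
    (hIH : ∀ K < 2 * j + 1, Bnk K)
    (hdg : ∀ (i0 : P) (h : co phi i0 S = 1),
      Module.finrank ℤ L = rk (supp (cl (co phi i0) S h (ld e 1) D)) + 1)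
    (hlt : a⁻¹ < j + 1) : False := by
  classical
  have hD := hFP.dd
  have ha0 := hR.loc.a0
  have ha1 := hR.loc.a1
  obtain ⟨i0, h⟩ := KE.exists_port hD hS
  obtain ⟨hLD, hq0, hroot, hcP, hD0, hDS, hv0, -⟩ := hOd P L phi D S q f e a hD hS hR
  have h2 : 2 ≤ Module.finrank ℤ L := by omega
  obtain ⟨c, n, G, fd⟩ := hFD ℤ P L phi D S i0 (ld e 1) h ⟨hD, h2, hS, h, hv0⟩
  have h2a : 2 ≤ a⁻¹ := by
    rw [le_inv_comm₀ (by norm_num) ha0]
    norm_num at ha2 ⊢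
    exact ha2
  by_cases hb : ∃ i, 1 < M ((G i).coeff 0)
  swap
  · push Not at hb
    have h3 := hNb P L phi D S i0 (ld e 1) h c n G a⁻¹ 0 q f fd h2a hcP hD0 hDS hLD
      (fun i => not_lt.mpr (hb i))
    rw [hrk] at h3
    push_cast at h3
    linarith
  obtain ⟨T', s, W, t, X⟩ := prp hOd hOn hBg hQs hNd hMm hFP hR fd hb
  obtain ⟨P', L', _, _, _, _, _, phi', D', hD', hP', hr1, hr2, hr3⟩ := X.big
  have hint : ∀ l ∈ snp phi S i0 G, 1 ≤ (t l).coeff 0 ∧ |(t l).coeff 1| ≤ (t l).coeff 0 - 1 :=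
    fun l hl => SFH27.nr_int hNr (X.ne l hl) (X.nn l hl)
  set T := ∑ l ∈ snp phi S i0 G, t l with hT
  have htt0 : T.coeff 0 = ∑ l ∈ snp phi S i0 G, (t l).coeff 0 := SFH27.sum_coeff _ t 0
  have htt1 : T.coeff 1 = ∑ l ∈ snp phi S i0 G, (t l).coeff 1 := SFH27.sum_coeff _ t 1
  have hcard : ((snp phi S i0 G).card : ℤ) = ∑ _l ∈ snp phi S i0 G, (1 : ℤ) := by simp
  have hk0 : ((snp phi S i0 G).card : ℤ) ≤ T.coeff 0 := by
    rw [htt0, hcard]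
    exact Finset.sum_le_sum fun l hl => (hint l hl).1
  have hk1 : ((snp phi S i0 G).card : ℤ) ≤ T.coeff 0 + T.coeff 1 := by
    rw [htt0, htt1, hcard, ← Finset.sum_add_distrib]
    refine Finset.sum_le_sum fun l hl => ?_
    have h3 := (hint l hl).2
    rw [abs_le] at h3
    omega
  have hk2 : T.coeff 1 + ((snp phi S i0 G).card : ℤ) ≤ T.coeff 0 := by
    rw [htt0, htt1, hcard, ← Finset.sum_add_distrib]
    refine Finset.sum_le_sum fun l hl => ?_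
    have h3 := (hint l hl).2
    rw [abs_le] at h3
    omega
  obtain ⟨-, o1, o2⟩ := hOn q f a T' s W T _ X.ld X.c1 ha0 ha1 X.root X.q0 hR.u
    (SFH27.sum_nnR _ _ X.nn) X.mass hk1
  have hr4 : rk (supp (cl (co phi i0) S h (ld e 1) D)) = 2 * j := by
    have h3 := hdg i0 h
    omega
  have hB := hIH (Module.finrank ℤ L') (by omega) T' P' L' phi' D' hD' hP' rfl
  refine hNu j (snp phi S i0 G).card (Module.finrank ℤ L') (f.coeff 0) (T.coeff 0) (T.coeff 1) a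
    T' hj ha0 ha1 (by linarith) X.T1 hu (by omega) hr1 hB.1 hB.2 hk0 hk2 o1 o2 ?_
  intro hl2 ht
  obtain ⟨l1, l2, hne, hl⟩ := Finset.card_eq_two.mp hl2
  have hm1 : l1 ∈ snp phi S i0 G := by rw [hl]; simp
  have hm2 : l2 ∈ snp phi S i0 G := by rw [hl]; simp
  have e0 : T.coeff 0 = (t l1).coeff 0 + (t l2).coeff 0 := by
    rw [htt0, hl, Finset.sum_pair hne]
  have e1 : T.coeff 1 = (t l1).coeff 1 + (t l2).coeff 1 := by
    rw [htt1, hl, Finset.sum_pair hne]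
  have i1 := hint l1 hm1
  have i2 := hint l2 hm2
  rw [abs_le] at i1 i2
  obtain ⟨b1, j1, u1, hj1, Q1, F1, -, -, hF1, hF1t⟩ := X.qc l1 hm1
  obtain ⟨b2, j2, u2, hj2, Q2, F2, -, -, hF2, hF2t⟩ := X.qc l2 hm2
  obtain ⟨m1, hm1', ht1⟩ := fej_of hFj hNr F1 hF1 hF1t (X.ne l1 hm1) (X.nn l1 hm1) (by omega)
  obtain ⟨m2, hm2', ht2⟩ := fej_of hFj hNr F2 hF2 hF2t (X.ne l2 hm2) (X.nn l2 hm2) (by omega)
  have hmass := X.mass
  rw [hl, Finset.sum_pair hne, ht1, ht2] at hmass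
  exact hOt q f a T' s W m1 m2 X.ld X.c1 ha0 ha1 X.root X.q0 hR.u hm1' hm2' hmass

/-- Row OF_1. -/
theorem of1 (hOd : OdtS) (hOn : On1S) (hOt : On2S) (hNu : OnuS) (hBg : BgrS) (hQs : QsgS)
    (hNd : Nd3S) (hMm : MmulS) (hFj : FjtS) (hNr : Nr3S) (hNb : NbzS) (hFD : FDS) : Of1S := by
  intro P L _ _ _ _ _ phi D S q f e a j hFP hS hR ha2 hu hj hrk hIH hdg
  by_contra hlt
  push Not at hlt
  exact of1_core hOd hOn hOt hNu hBg hQs hNd hMm hFj hNr hNb hFD phi D S q f e a j hFP hS hR ha2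
    hu hj hrk hIH (fun i0 h => hdg.2 i0 h) hlt

end Pool.Agent.B5.OFH29
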