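import Pool.Agent.Lib.MP_b5021c_nt.OF.H29.Prp
import Pool.Agent.Lib.MP_b5021c_nt.E.H07.Mxu
import Pool.Agent.Lib.MP_b5021c_nt.E.H67.Rfc

/-!
# Board b5, chapter OF, row OF_2: `u ≥ 2` at a load of type B with a drop and a small factor
-/

namespace Pool.Agent.B5.OFH29

open scoped LaurentPolynomial
open Polynomial Pool.Agent.B5
open Pool.Agent.MP_b5021c_nt (nz)

set_option linter.unusedSectionVars false

/-! ## One variable -/

theorem toL_neg (p : ℤ[X]) (k : ℤ) (hk : k < 0) : (toLaurent p : RO ℤ).coeff k = 0 := by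
  induction p using Polynomial.induction_on' with
  | add f g hf hg =>
    rw [map_add, AddMonoidAlgebra.coeff_add, Finsupp.add_apply, hf, hg, add_zero]
  | monomial n c =>
    rw [← Polynomial.C_mul_X_pow_eq_monomial, Polynomial.toLaurent_C_mul_X_pow,
      ← LaurentPolynomial.single_eq_C_mul_T, AddMonoidAlgebra.coeff_single,
      Finsupp.single_apply, if_neg]
    omega

theorem toL_nat (p : ℤ[X]) (k : ℕ) : (toLaurent p : RO ℤ).coeff (k : ℤ) = p.coeff k := by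
  induction p using Polynomial.induction_on' with
  | add f g hf hg =>
    rw [map_add, AddMonoidAlgebra.coeff_add, Finsupp.add_apply, hf, hg, Polynomial.coeff_add]
  | monomial n c =>
    rw [← Polynomial.C_mul_X_pow_eq_monomial, Polynomial.toLaurent_C_mul_X_pow,
      ← LaurentPolynomial.single_eq_C_mul_T, AddMonoidAlgebra.coeff_single,
      Finsupp.single_apply, Polynomial.coeff_C_mul, Polynomial.coeff_X_pow]
    by_cases h : k = n
    · subst h
      simp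
    · rw [if_neg (by omega), if_neg h, mul_zero]

/-- `q = t v` with a symmetric `t` is impossible unless `q = v`. -/
theorem sym_one {q v : ℤ[X]} {t : RO ℤ} (hq : q.coeff 0 = 1) (hv : v.coeff 0 = 1)
    (hs : ∀ k : ℤ, t.coeff (-k) = t.coeff k)
    (h : (toLaurent q : RO ℤ) = t * toLaurent v) : q = v := by
  have ht : t ≠ 0 := by
    rintro rfl
    rw [zero_mul] at h
    have h1 : q = 0 := Polynomial.toLaurent_injective (by rw [h, map_zero])
    rw [h1, coeff_zero] at hq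
    exact zero_ne_one hq
  obtain ⟨n, p, hp, htp⟩ := H67.nf_exists ht
  have h1 : (LaurentPolynomial.T 0 : RO ℤ) * toLaurent q =
      LaurentPolynomial.T n * toLaurent (p * v) := by
    rw [LaurentPolynomial.T_zero, one_mul, h, htp, map_mul, mul_assoc]
  have h2 : (p * v).coeff 0 ≠ 0 := by
    rw [mul_coeff_zero, hv, mul_one]
    exact hp
  obtain ⟨h3, h4⟩ := H56.nf_unique 0 n q (p * v) (by rw [hq]; exact one_ne_zero) h2 h1
  subst h3
  rw [LaurentPolynomial.T_zero, one_mul] at htp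
  have h5 : ∀ k : ℕ, p.coeff (k + 1) = 0 := by
    intro k
    have h6 := hs ((k + 1 : ℕ) : ℤ)
    rw [htp, toL_neg _ _ (by omega), toL_nat] at h6
    exact h6.symm
  have h6 : p = C (p.coeff 0) := by
    ext k
    rcases k with - | k
    · rw [coeff_C_zero]
    · rw [h5, coeff_C_succ]
  have h7 : p.coeff 0 = 1 := by
    have h8 := congrArg (fun x : ℤ[X] => x.coeff 0) h4
    simp only [mul_coeff_zero, hv, mul_one, hq] at h8
    exact h8.symm
  rw [h4, h6, h7, C_1, one_mul]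

/-- A nonnegative mass is symmetric. -/
theorem nn_sym (hNr : Nr3S) {t : RO ℤ} (h0 : t ≠ 0) (hn : NnR t) (k : ℤ) :
    t.coeff (-k) = t.coeff k := by
  by_cases hk : k = 0
  · rw [hk, neg_zero]
  · have h1 := ((hNr ℤ t h0 hn).2.1 k hk).2
    rw [SFH27.emb_int, SFH27.emb_int, map_intCast] at h1
    exact_mod_cast h1

/-- The zero of `v` is not a zero of `q`. -/
theorem not_root {q f : ℤ[X]} {a T' : ℝ} (hL : Nr.Sch.Loc q f a) (hu : 2 ≤ f.coeff 0)
    (hT : 1 < T') (h : T' + T'⁻¹ + f.coeff 0 * (1 - a) ≤ a⁻¹ + 1)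
    (h0 : (cpz q).eval ((T'⁻¹ : ℝ) : ℂ) = 0) : False := by
  have hT0 : 0 < T' := by linarith
  have hq : q.map (Coef.emb : ℤ →+* ℂ) ≠ 0 := by
    intro h1
    have h2 := congrArg (fun p : ℂ[X] => p.coeff 0) h1
    simp only [coeff_map, coeff_zero, hL.q0, map_one] at h2
    exact one_ne_zero h2
  have h1 : ((T'⁻¹ : ℝ) : ℂ) ∈ (q.map (Coef.emb : ℤ →+* ℂ)).roots.filter (fun x => ‖x‖ < 1) := by
    rw [Multiset.mem_filter, mem_roots hq]
    refine ⟨h0, ?_⟩
    rw [Complex.norm_real, Real.norm_eq_abs, abs_of_pos (inv_pos.mpr hT0)]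
    exact inv_lt_one_of_one_lt₀ hT
  rw [KE.roots_loc hL, Multiset.mem_singleton] at h1
  have h2 : T'⁻¹ = a := by exact_mod_cast h1
  have h3 : T' = a⁻¹ := by rw [← h2, inv_inv]
  have h4 : (2 : ℝ) ≤ (f.coeff 0 : ℝ) := by exact_mod_cast hu
  have h5 : 0 < 1 - a := by linarith [hL.a1]
  rw [h2, h3] at h
  nlinarith

/-! ## Faces -/

/-- The coefficients of the face with the four sets, from the twelve identities. -/
theorem twelve {R L : Type} [CommRing R] [AddCommGroup L] (c : L → R) (S S1 S2 b : L)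
    (x0 x1 x2 x3 A : R) (c1 : x1 * c S1 = A) (p1 : x0 * x1 * c (S1 + S) = -A)
    (p2 : x3 * x1 * c (S1 + b) = -A) (p3 : x0 * x3 * x1 * c (S1 + b + S) = A)
    (c2 : x2 * c S2 = A) (q1 : x0 * x2 * c (S2 + S) = -A)
    (q2 : x3 * x2 * c (S2 + b) = -A) (q3 : x0 * x3 * x2 * c (S2 + b + S) = A)
    (c12 : x1 * x2 * c (S1 + S2) = -A) (r1 : x0 * (x1 * x2) * c (S1 + S2 + S) = A)
    (r2 : x3 * (x1 * x2) * c (S1 + S2 + b) = A)
    (r3 : x0 * x3 * (x1 * x2) * c (S1 + S2 + b + S) = -A)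
    (I : Finset (Fin 4)) (hI : 1 ∈ I ∨ 2 ∈ I) :
    (∏ i ∈ I, (![x0, x1, x2, x3] : Fin 4 → R) i) * c (∑ i ∈ I, (![S, S1, S2, b] : Fin 4 → L) i) =
      (-1) ^ (I.card + 1) * A := by
  classical
  have hsum : ∑ i ∈ I, (![S, S1, S2, b] : Fin 4 → L) i =
      (if (0 : Fin 4) ∈ I then S else 0) + (if (1 : Fin 4) ∈ I then S1 else 0) +
        (if (2 : Fin 4) ∈ I then S2 else 0) + (if (3 : Fin 4) ∈ I then b else 0) := by
    have h5 : ∑ i ∈ I, (![S, S1, S2, b] : Fin 4 → L) i =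
        ∑ i : Fin 4, if i ∈ I then (![S, S1, S2, b] : Fin 4 → L) i else 0 := by
      rw [Finset.sum_ite_mem, Finset.univ_inter]
    rw [h5, Fin.sum_univ_four]
    rfl
  have hprod : ∏ i ∈ I, (![x0, x1, x2, x3] : Fin 4 → R) i =
      (if (0 : Fin 4) ∈ I then x0 else 1) * (if (1 : Fin 4) ∈ I then x1 else 1) *
        (if (2 : Fin 4) ∈ I then x2 else 1) * (if (3 : Fin 4) ∈ I then x3 else 1) := by
    have h5 : ∏ i ∈ I, (![x0, x1, x2, x3] : Fin 4 → R) i =
        ∏ i : Fin 4, if i ∈ I then (![x0, x1, x2, x3] : Fin 4 → R) i else 1 := by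
      rw [Finset.prod_ite_mem, Finset.univ_inter]
    rw [h5, Fin.prod_univ_four]
    rfl
  have hcard : I.card = (if (0 : Fin 4) ∈ I then 1 else 0) + (if (1 : Fin 4) ∈ I then 1 else 0) +
        (if (2 : Fin 4) ∈ I then 1 else 0) + (if (3 : Fin 4) ∈ I then 1 else 0) := by
    have h5 : I.card = ∑ i : Fin 4, if i ∈ I then 1 else 0 := by
      rw [Finset.sum_ite_mem, Finset.univ_inter, Finset.card_eq_sum_ones]
    rw [h5, Fin.sum_univ_four]
  rw [hsum, hprod, hcard]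
  by_cases m1 : (1 : Fin 4) ∈ I
  · by_cases m2 : (2 : Fin 4) ∈ I
    · by_cases m0 : (0 : Fin 4) ∈ I
      · by_cases m3 : (3 : Fin 4) ∈ I
        · rw [if_pos m0, if_pos m1, if_pos m2, if_pos m3, if_pos m0, if_pos m1, if_pos m2,
            if_pos m3, if_pos m0, if_pos m1, if_pos m2, if_pos m3,
            show S + S1 + S2 + b = S1 + S2 + b + S by abel]
          linear_combination r3
        · rw [if_pos m0, if_pos m1, if_pos m2, if_neg m3, if_pos m0, if_pos m1, if_pos m2,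
            if_neg m3, if_pos m0, if_pos m1, if_pos m2, if_neg m3,
            show S + S1 + S2 + 0 = S1 + S2 + S by abel]
          linear_combination r1
      · by_cases m3 : (3 : Fin 4) ∈ I
        · rw [if_neg m0, if_pos m1, if_pos m2, if_pos m3, if_neg m0, if_pos m1, if_pos m2,
            if_pos m3, if_neg m0, if_pos m1, if_pos m2, if_pos m3,
            show 0 + S1 + S2 + b = S1 + S2 + b by abel]
          linear_combination r2
        · rw [if_neg m0, if_pos m1, if_pos m2, if_neg m3, if_neg m0, if_pos m1, if_pos m2,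
            if_neg m3, if_neg m0, if_pos m1, if_pos m2, if_neg m3,
            show 0 + S1 + S2 + 0 = S1 + S2 by abel]
          linear_combination c12
    · by_cases m0 : (0 : Fin 4) ∈ I
      · by_cases m3 : (3 : Fin 4) ∈ I
        · rw [if_pos m0, if_pos m1, if_neg m2, if_pos m3, if_pos m0, if_pos m1, if_neg m2,
            if_pos m3, if_pos m0, if_pos m1, if_neg m2, if_pos m3,
            show S + S1 + 0 + b = S1 + b + S by abel]
          linear_combination p3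
        · rw [if_pos m0, if_pos m1, if_neg m2, if_neg m3, if_pos m0, if_pos m1, if_neg m2,
            if_neg m3, if_pos m0, if_pos m1, if_neg m2, if_neg m3,
            show S + S1 + 0 + 0 = S1 + S by abel]
          linear_combination p1
      · by_cases m3 : (3 : Fin 4) ∈ I
        · rw [if_neg m0, if_pos m1, if_neg m2, if_pos m3, if_neg m0, if_pos m1, if_neg m2,
            if_pos m3, if_neg m0, if_pos m1, if_neg m2, if_pos m3,
            show 0 + S1 + 0 + b = S1 + b by abel]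
          linear_combination p2
        · rw [if_neg m0, if_pos m1, if_neg m2, if_neg m3, if_neg m0, if_pos m1, if_neg m2,
            if_neg m3, if_neg m0, if_pos m1, if_neg m2, if_neg m3,
            show 0 + S1 + 0 + 0 = S1 by abel]
          linear_combination c1
  · by_cases m2 : (2 : Fin 4) ∈ I
    · by_cases m0 : (0 : Fin 4) ∈ I
      · by_cases m3 : (3 : Fin 4) ∈ I
        · rw [if_pos m0, if_neg m1, if_pos m2, if_pos m3, if_pos m0, if_neg m1, if_pos m2,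
            if_pos m3, if_pos m0, if_neg m1, if_pos m2, if_pos m3,
            show S + 0 + S2 + b = S2 + b + S by abel]
          linear_combination q3
        · rw [if_pos m0, if_neg m1, if_pos m2, if_neg m3, if_pos m0, if_neg m1, if_pos m2,
            if_neg m3, if_pos m0, if_neg m1, if_pos m2, if_neg m3,
            show S + 0 + S2 + 0 = S2 + S by abel]
          linear_combination q1
      · by_cases m3 : (3 : Fin 4) ∈ I
        · rw [if_neg m0, if_neg m1, if_pos m2, if_pos m3, if_neg m0, if_neg m1, if_pos m2,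
            if_pos m3, if_neg m0, if_neg m1, if_pos m2, if_pos m3,
            show 0 + 0 + S2 + b = S2 + b by abel]
          linear_combination q2
        · rw [if_neg m0, if_neg m1, if_pos m2, if_neg m3, if_neg m0, if_neg m1, if_pos m2,
            if_neg m3, if_neg m0, if_neg m1, if_pos m2, if_neg m3,
            show 0 + 0 + S2 + 0 = S2 by abel]
          linear_combination c2
    · exfalso
      rcases hI with h | h
      · exact m1 h
      · exact m2 h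


section

variable {P L : Type} [Fintype P] [DecidableEq P] [AddCommGroup L] [Module.Free ℤ L]
  [Module.Finite ℤ L] {phi : L →+ (P → ℤ)} {D : AO ℤ L}

/-- Two independent partners are mutual and their sum is outside `US`. -/
theorem two_partners (hF3 : F3S) (hD : DD phi D) {S S1 S2 : L} {e0 e1 e2 : (RO ℤ)ˣ}
    (h1 : Mut D S S1 e0 e1) (h2 : Mut D S S2 e0 e2)
    (h3 : S2 ∉ satur (US e1 S1 D ⊔ Submodule.span ℤ {S}))
    (h4 : S1 ∉ satur (US e2 S2 D ⊔ Submodule.span ℤ {S})) :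
    Mut D S1 S2 e1 e2 ∧ S1 + S2 ∉ US e0 S D := by
  have hle : ∀ (e : (RO ℤ)ˣ) (T : L), US e T D ≤ satur (US e T D ⊔ Submodule.span ℤ {S}) :=
    fun e T => le_trans le_sup_left (H63.le_satur _)
  refine ⟨⟨h1.r1, h2.r1, fun h5 => h3 (hle _ _ h5), fun h5 => h4 (hle _ _ h5)⟩, ?_⟩
  intro h5
  have h6 := hF3 ℤ P L phi D S S1 e0 e1 hD.inj hD.bin h1.r0 h1.r1 h1.m0
  have h7 := h6 h5
  have h8 : S1 ∈ satur (US e1 S1 D ⊔ Submodule.span ℤ {S}) := hle _ _ (H07.mem_US _ _ _)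
  apply h3
  have h9 := Submodule.sub_mem _ h7 h8
  rwa [add_sub_cancel_left] at h9

/-- The four coefficients over an exponent outside `US`. -/
theorem four {S b a : L} {e0 e : (RO ℤ)ˣ} {x y : RO ℤ}
    (h : D.coeff a + (e0 : RO ℤ) * D.coeff (a + S) = 0 ∧
      D.coeff a + (e : RO ℤ) * D.coeff (a + b) = 0 ∧
      D.coeff (a + b) + (e0 : RO ℤ) * D.coeff (a + b + S) = 0) (hx : x * D.coeff a = y) :
    (e0 : RO ℤ) * x * D.coeff (a + S) = -y ∧ (e : RO ℤ) * x * D.coeff (a + b) = -y ∧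
      (e0 : RO ℤ) * (e : RO ℤ) * x * D.coeff (a + b + S) = y := by
  obtain ⟨h1, h2, h3⟩ := h
  refine ⟨?_, ?_, ?_⟩
  · linear_combination x * h1 - hx
  · linear_combination x * h2 - hx
  · linear_combination (e : RO ℤ) * x * h3 - x * h2 + hx

/-- The four sets are disjoint. -/
theorem dis_four {S S1 S2 b : L} (d1 : ∀ i, phi S i = 0 ∨ phi S1 i = 0)
    (d2 : ∀ i, phi S i = 0 ∨ phi S2 i = 0) (d12 : ∀ i, phi S1 i = 0 ∨ phi S2 i = 0)
    (dS : ∀ i, phi b i = 0 ∨ phi S i = 0) (db1 : ∀ i, phi b i = 0 ∨ phi S1 i = 0)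
    (db2 : ∀ i, phi b i = 0 ∨ phi S2 i = 0) (i j : Fin 4) (hij : i ≠ j) (p : P) :
    phi ((![S, S1, S2, b] : Fin 4 → L) i) p = 0 ∨ phi ((![S, S1, S2, b] : Fin 4 → L) j) p = 0 := by
  fin_cases i
  · fin_cases j
    · exact absurd rfl hij
    · exact d1 p
    · exact d2 p
    · exact (dS p).symm
  · fin_cases j
    · exact (d1 p).symm
    · exact absurd rfl hij
    · exact d12 p
    · exact (db1 p).symm
  · fin_cases j
    · exact (d2 p).symm
    · exact (d12 p).symm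
    · exact absurd rfl hij
    · exact (db2 p).symm
  · fin_cases j
    · exact dS p
    · exact db1 p
    · exact db2 p
    · exact absurd rfl hij

/-- The face of `S`, `S1`, `S2`, `b`. -/
theorem no_four (hFc : Fc4S) (hF3 : F3S) (hMc : McoS) (hD : DD phi D)
    (h2 : 2 ≤ Module.finrank ℤ L) {S S1 S2 b : L} {e0 e1 e2 e : (RO ℤ)ˣ}
    (hm1 : Mut D S S1 e0 e1) (hm2 : Mut D S S2 e0 e2)
    (h3 : S2 ∉ satur (US e1 S1 D ⊔ Submodule.span ℤ {S}))
    (h4 : S1 ∉ satur (US e2 S2 D ⊔ Submodule.span ℤ {S})) (bb : Bin phi b) (b0 : b ≠ 0)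
    (dS : ∀ i, phi b i = 0 ∨ phi S i = 0)
    (hb : (e : RO ℤ) * D.coeff b = (e0 : RO ℤ) * D.coeff S)
    (hbS : (e0 : RO ℤ) * (e : RO ℤ) * D.coeff (S + b) =
      -(D.coeff 0 + 2 * ((e0 : RO ℤ) * D.coeff S)))
    (hfree : ∀ a : L, (∀ i, phi a i = 0 ∨ (phi S i = 0 ∧ phi b i = 0)) → a ∉ US e0 S D →
      D.coeff a + (e0 : RO ℤ) * D.coeff (a + S) = 0 ∧
      D.coeff a + (e : RO ℤ) * D.coeff (a + b) = 0 ∧
      D.coeff (a + b) + (e0 : RO ℤ) * D.coeff (a + b + S) = 0)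
    (hdis : ∀ (S2 : L) (e2 : (RO ℤ)ˣ), Mut D S S2 e0 e2 → ∀ i, phi b i = 0 ∨ phi S2 i = 0)
    (hv0 : D.coeff 0 + (e0 : RO ℤ) * D.coeff S ≠ 0) : False := by
  classical
  obtain ⟨hm12, hU12⟩ := two_partners hF3 hD hm1 hm2 h3 h4
  obtain ⟨d1, c1, c01, -⟩ := hMc ℤ P L phi D S S1 e0 e1 hD.inj hD.bin hm1
  obtain ⟨d2, c2, c02, -⟩ := hMc ℤ P L phi D S S2 e0 e2 hD.inj hD.bin hm2
  obtain ⟨d12, c12, c012, -⟩ := hMc ℤ P L phi D S1 S2 e1 e2 hD.inj hD.bin hm12
  have db1 := hdis S1 e1 hm1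
  have db2 := hdis S2 e2 hm2
  have bS : Bin phi S := hD.bin _ hm1.r0.1
  have b1 : Bin phi S1 := hD.bin _ hm1.r1.1
  have b2 : Bin phi S2 := hD.bin _ hm2.r1.1
  set A : RO ℤ := (e0 : RO ℤ) * D.coeff S with hA
  have hA0 : A ≠ 0 := mul_ne_zero e0.ne_zero hm1.r0.1
  obtain ⟨p1, p2, p3⟩ := four (x := (e1 : RO ℤ)) (y := A) (hfree S1 (by
    intro i
    have := d1 i
    have := db1 i
    omega) hm1.m0) c1
  obtain ⟨q1, q2, q3⟩ := four (x := (e2 : RO ℤ)) (y := A) (hfree S2 (by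
    intro i
    have := d2 i
    have := db2 i
    omega) hm2.m0) c2
  have c12' : (e1 : RO ℤ) * (e2 : RO ℤ) * D.coeff (S1 + S2) = -A := by
    rw [c012, c1]
  obtain ⟨r1, r2, r3⟩ := four (x := (e1 : RO ℤ) * (e2 : RO ℤ)) (y := -A) (hfree (S1 + S2) (by
    intro i
    have := d1 i
    have := d2 i
    have := db1 i
    have := db2 i
    rw [map_add, Pi.add_apply]
    omega) hU12) c12'
  have k0 : (((![e0, e1, e2, e] : Fin 4 → (RO ℤ)ˣ) 0 : (RO ℤ)ˣ) : RO ℤ) *
      D.coeff ((![S, S1, S2, b] : Fin 4 → L) 0) = A := by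
    have z1 : (![e0, e1, e2, e] : Fin 4 → (RO ℤ)ˣ) 0 = e0 := rfl
    have z2 : (![S, S1, S2, b] : Fin 4 → L) 0 = S := rfl
    rw [z1, z2]
  have k1 : (((![e0, e1, e2, e] : Fin 4 → (RO ℤ)ˣ) 3 : (RO ℤ)ˣ) : RO ℤ) *
      D.coeff ((![S, S1, S2, b] : Fin 4 → L) 3) = A := by
    have z1 : (![e0, e1, e2, e] : Fin 4 → (RO ℤ)ˣ) 3 = e := rfl
    have z2 : (![S, S1, S2, b] : Fin 4 → L) 3 = b := rfl
    rw [z1, z2]
    exact hb
  have k2 : (((![e0, e1, e2, e] : Fin 4 → (RO ℤ)ˣ) 0 : (RO ℤ)ˣ) : RO ℤ) *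
      (((![e0, e1, e2, e] : Fin 4 → (RO ℤ)ˣ) 3 : (RO ℤ)ˣ) : RO ℤ) *
      D.coeff ((![S, S1, S2, b] : Fin 4 → L) 0 + (![S, S1, S2, b] : Fin 4 → L) 3) =
      -(D.coeff 0 + 2 * A) := by
    have z1 : (![e0, e1, e2, e] : Fin 4 → (RO ℤ)ˣ) 3 = e := rfl
    have z2 : (![S, S1, S2, b] : Fin 4 → L) 3 = b := rfl
    have z3 : (![e0, e1, e2, e] : Fin 4 → (RO ℤ)ˣ) 0 = e0 := rfl
    have z4 : (![S, S1, S2, b] : Fin 4 → L) 0 = S := rfl
    rw [z1, z2, z3, z4]
    exact hbS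
  have key := hFc ℤ P L phi D ![S, S1, S2, b] ![e0, e1, e2, e] A hD h2
    (by
      intro i
      fin_cases i
      · exact bS
      · exact b1
      · exact b2
      · exact bb)
    (by
      intro i
      fin_cases i
      · exact hm1.r0.2.1
      · exact hm1.r1.2.1
      · exact hm2.r1.2.1
      · exact b0)
    (dis_four d1 d2 d12 dS db1 db2) k0 k1 k2 ?_
  · rcases key with h5 | h5
    · exact hv0 h5
    · exact hA0 h5
  · intro I hI
    have h6 : ∀ i, (((![e0, e1, e2, e] : Fin 4 → (RO ℤ)ˣ) i : (RO ℤ)ˣ) : RO ℤ) =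
        (![(e0 : RO ℤ), (e1 : RO ℤ), (e2 : RO ℤ), (e : RO ℤ)] : Fin 4 → RO ℤ) i := by
      intro i
      fin_cases i <;> rfl
    rw [Finset.prod_congr rfl fun i _ => h6 i]
    rw [neg_neg] at r1 r2
    exact twelve (fun a => D.coeff a) S S1 S2 b (e0 : RO ℤ) (e1 : RO ℤ) (e2 : RO ℤ) (e : RO ℤ) A
      c1 p1 p2 p3 c2 q1 q2 q3 c12' r1 r2 r3 I hI

/-- The three sets are disjoint. -/
theorem dis_three {S S1 b : L} (d1 : ∀ i, phi S i = 0 ∨ phi S1 i = 0)
    (dS : ∀ i, phi b i = 0 ∨ phi S i = 0) (db1 : ∀ i, phi b i = 0 ∨ phi S1 i = 0)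
    (i j : Fin 3) (hij : i ≠ j) (p : P) :
    phi ((![S, S1, b] : Fin 3 → L) i) p = 0 ∨ phi ((![S, S1, b] : Fin 3 → L) j) p = 0 := by
  fin_cases i
  · fin_cases j
    · exact absurd rfl hij
    · exact d1 p
    · exact (dS p).symm
  · fin_cases j
    · exact (d1 p).symm
    · exact absurd rfl hij
    · exact (db1 p).symm
  · fin_cases j
    · exact dS p
    · exact db1 p
    · exact absurd rfl hij

/-- The face of `S`, `S1`, `b`: `v conj A` is real. -/
theorem face_three (hFc : Fc3S) (hMc : McoS) (hD : DD phi D)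
    (h2 : 2 ≤ Module.finrank ℤ L) {S S1 b : L} {e0 e1 e : (RO ℤ)ˣ}
    (hm1 : Mut D S S1 e0 e1) (bb : Bin phi b) (b0 : b ≠ 0)
    (dS : ∀ i, phi b i = 0 ∨ phi S i = 0)
    (hb : (e : RO ℤ) * D.coeff b = (e0 : RO ℤ) * D.coeff S)
    (hbS : (e0 : RO ℤ) * (e : RO ℤ) * D.coeff (S + b) =
      -(D.coeff 0 + 2 * ((e0 : RO ℤ) * D.coeff S)))
    (hfree : ∀ a : L, (∀ i, phi a i = 0 ∨ (phi S i = 0 ∧ phi b i = 0)) → a ∉ US e0 S D →
      D.coeff a + (e0 : RO ℤ) * D.coeff (a + S) = 0 ∧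
      D.coeff a + (e : RO ℤ) * D.coeff (a + b) = 0 ∧
      D.coeff (a + b) + (e0 : RO ℤ) * D.coeff (a + b + S) = 0)
    (hdis : ∀ (S2 : L) (e2 : (RO ℤ)ˣ), Mut D S S2 e0 e2 → ∀ i, phi b i = 0 ∨ phi S2 i = 0)
    (z : Circle) :
    (evR z (D.coeff 0 + (e0 : RO ℤ) * D.coeff S) *
      (starRingEnd ℂ) (evR z ((e0 : RO ℤ) * D.coeff S))).im = 0 := by
  obtain ⟨d1, c1, c01, -⟩ := hMc ℤ P L phi D S S1 e0 e1 hD.inj hD.bin hm1
  have db1 := hdis S1 e1 hm1
  have bS : Bin phi S := hD.bin _ hm1.r0.1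
  have b1 : Bin phi S1 := hD.bin _ hm1.r1.1
  obtain ⟨p1, p2, p3⟩ := four (x := (e1 : RO ℤ)) (y := (e0 : RO ℤ) * D.coeff S) (hfree S1 (by
    intro i
    have := d1 i
    have := db1 i
    omega) hm1.m0) c1
  set E : Fin 3 → L := ![S, S1, b] with hE
  set ee : Fin 3 → (RO ℤ)ˣ := ![e0, e1, e] with hee
  have E0 : E 0 = S := rfl
  have E1 : E 1 = S1 := rfl
  have E2 : E 2 = b := rfl
  have z0 : ee 0 = e0 := rfl
  have z1 : ee 1 = e1 := rfl
  have z2 : ee 2 = e := rfl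
  refine hFc ℤ P L phi D E ee ((e0 : RO ℤ) * D.coeff S) hD h2 ?_ ?_
    (dis_three d1 dS db1) ?_ ?_ ?_ ?_ ?_ ?_ ?_ z
  · intro i
    fin_cases i
    · exact bS
    · exact b1
    · exact bb
  · intro i
    fin_cases i
    · exact hm1.r0.2.1
    · exact hm1.r1.2.1
    · exact b0
  · rw [z0, E0]
  · rw [z1, E1]
    exact c1
  · rw [z2, E2]
    exact hb
  · rw [z0, z1, E0, E1]
    exact c01
  · rw [z2, z1, E2, E1, add_comm b S1]
    exact p2
  · rw [z0, z2, E0, E2]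
    exact hbS
  · rw [z0, z1, z2, E0, E1, E2, show S + S1 + b = S1 + b + S by abel]
    linear_combination p3

end

/-! ## The result -/

theorem of2_core (hOd : OdtS) (hOn : On1S) (hNu : OndS) (hRe : RecS) (hF3c : Fc3S) (hF4c : Fc4S)
    (hNw : NdwS) (hBg : BgrS) (hQs : QsgS) (hNd : Nd3S) (hMm : MmulS) (hNr : Nr3S) (hNb : NbzS)
    (hMc : McoS) (hF3 : F3S)
    {P L : Type} [Fintype P] [DecidableEq P] [AddCommGroup L]
    [Module.Free ℤ L] [Module.Finite ℤ L] (phi : L →+ (P → ℤ)) (D : AO ℤ L) (S : L) (q f : ℤ[X])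
    (e : (RO ℤ)ˣ) (a : ℝ) (j g : ℕ) (hFP : FP phi D) (hR : RN D S q f e a)
    (ha2 : a ≤ 1 / 2) (hu : 2 ≤ f.coeff 0) (hj : 2 ≤ j) (hrk : Module.finrank ℤ L = 2 * j + 1)
    (hIH : ∀ K < 2 * j + 1, Bnk K) (hg : 1 ≤ g)
    (hdg : ∀ (i0 : P) (h : co phi i0 S = 1),
      Module.finrank ℤ L = rk (supp (cl (co phi i0) S h (ld e 1) D)) + 1 + g)
    (hmut : ∃ (S1 : L) (e1 : (RO ℤ)ˣ), Mut D S S1 (ld e 1) e1)
    (htwo : 2 ≤ g → ∃ (S1 S2 : L) (e1 e2 : (RO ℤ)ˣ), Mut D S S1 (ld e 1) e1 ∧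
      Mut D S S2 (ld e 1) e2 ∧ S2 ∉ satur (US e1 S1 D ⊔ Submodule.span ℤ {S}) ∧
      S1 ∉ satur (US e2 S2 D ⊔ Submodule.span ℤ {S}))
    (hall : ∀ R, Ray D R → R ∉ US (ld e 1) S D → ∃ e2 : (RO ℤ)ˣ, Mut D S R (ld e 1) e2)
    {i0 : P} {h : co phi i0 S = 1} {c : RO ℤ} {n : ℕ} {G : Fin n → AO ℤ (Ker (co phi i0))}
    (fd : FD phi D S i0 (ld e 1) h c n G)
    (hsm : (snp phi S i0 G).Nonempty ∨ ∀ i, ¬ 1 < M ((G i).coeff 0))
    (hlt : a⁻¹ < j + 1) : False := by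
  classical
  have hD := hFP.dd
  have ha0 := hR.loc.a0
  have ha1 := hR.loc.a1
  have h2 : 2 ≤ Module.finrank ℤ L := by omega
  obtain ⟨hLD, hq0, hroot, hcP, hD0, hDS, hv0, -⟩ := hOd P L phi D S q f e a hD fd.cc.ray hR
  have h2a : 2 ≤ a⁻¹ := by
    rw [le_inv_comm₀ (by norm_num) ha0]
    norm_num at ha2 ⊢
    exact ha2
  by_cases hb : ∃ i, 1 < M ((G i).coeff 0)
  swap
  · push Not at hb
    have h3 := hNb P L phi D S i0 (ld e 1) h c n G a⁻¹ 0 q f fd h2a hcP hD0 hDS hLD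
      (fun i => not_lt.mpr (hb i))
    rw [hrk] at h3
    push_cast at h3
    linarith
  have hsn : (snp phi S i0 G).Nonempty := by
    rcases hsm with h3 | h3
    · exact h3
    · obtain ⟨i, hi⟩ := hb
      exact absurd hi (h3 i)
  obtain ⟨T', s, W, t, X⟩ := prp hOd hOn hBg hQs hNd hMm hFP hR fd hb
  obtain ⟨P', L', _, _, _, _, _, phi', D', hD', hP', hr1, hr2, hr3⟩ := X.big
  have hT0 : 0 < T' := by linarith [X.T1]
  have hv0' : (q + Polynomial.X * f).coeff 0 = 1 := by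
    rw [coeff_add, mul_coeff_zero, coeff_X_zero, zero_mul, add_zero, hq0]
  have hVL : D.coeff 0 + (ld e 1 : RO ℤ) * D.coeff S = toLaurent (q + Polynomial.X * f) := by
    rw [hD0, hDS, LaurentPolynomial.T_zero, one_mul, one_mul, map_add]
  have hVne : q ≠ q + Polynomial.X * f := by
    intro h3
    have h4 : Polynomial.X * f = 0 := by linear_combination -h3
    have h5 : f = 0 := (mul_eq_zero.mp h4).resolve_left X_ne_zero
    rw [h5, coeff_zero] at hu
    omega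
  -- the one-variable inequality without masses
  have hk0 : (0 : ℤ) ≤ (∑ l ∈ snp phi S i0 G, t l).coeff 0 + (∑ l ∈ snp phi S i0 G, t l).coeff 1 := by
    rw [SFH27.sum_coeff, SFH27.sum_coeff, ← Finset.sum_add_distrib]
    refine Finset.sum_nonneg fun l hl => ?_
    have h3 := (SFH27.nr_int hNr (X.ne l hl) (X.nn l hl))
    have h4 := h3.2
    rw [abs_le] at h4
    omega
  have hineq := (hOn q f a T' s W _ 0 X.ld X.c1 ha0 ha1 X.root X.q0 hR.u
    (SFH27.sum_nnR _ _ X.nn) X.mass (by rw [Nat.cast_zero]; exact hk0)).2.2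
  rw [Nat.cast_zero, zero_mul, add_zero] at hineq
  -- all masses are one
  have hmass1 : ∀ l ∈ snp phi S i0 G, t l = 1 ∧ ∃ (b : L) (e' : (RO ℤ)ˣ),
      Bin phi b ∧ b ≠ 0 ∧ (∀ i, phi b i = 0 ∨ phi S i = 0) ∧
      (e' : RO ℤ) * D.coeff b = (ld e 1 : RO ℤ) * D.coeff S ∧
      (ld e 1 : RO ℤ) * (e' : RO ℤ) * D.coeff (S + b) =
        -(D.coeff 0 + 2 * ((ld e 1 : RO ℤ) * D.coeff S)) ∧
      (∀ a : L, (∀ i, phi a i = 0 ∨ (phi S i = 0 ∧ phi b i = 0)) → a ∉ US (ld e 1) S D →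
        D.coeff a + (ld e 1 : RO ℤ) * D.coeff (a + S) = 0 ∧
        D.coeff a + (e' : RO ℤ) * D.coeff (a + b) = 0 ∧
        D.coeff (a + b) + (ld e 1 : RO ℤ) * D.coeff (a + b + S) = 0) ∧
      ∀ (S2 : L) (e2 : (RO ℤ)ˣ), Mut D S S2 (ld e 1) e2 → ∀ i, phi b i = 0 ∨ phi S2 i = 0 := by
    intro l hl
    obtain ⟨b, j', e', hj', Q, F, hQ, hQF, -, hFt⟩ := X.qc l hl
    obtain ⟨S1, e1, hm1⟩ := hmut
    have hsym := nn_sym hNr (X.ne l hl) (X.nn l hl)
    have hq1 : (toLaurent q : RO ℤ) = D.coeff 0 := by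
      rw [hD0, LaurentPolynomial.T_zero, one_mul]
    rcases hNw ℤ P L phi D S i0 (ld e 1) h c n G l b j' e' hj' Q F S1 e1 hFP hQ hQF
      (by rw [hFt]; exact X.ne l hl) hm1 hall with h3 | h3 | h3 | h3
    · -- `V_0` divides `D_S`
      exfalso
      obtain ⟨w, hw⟩ := h3
      have h4 : (toLaurent (Polynomial.X * f) : RO ℤ) =
          toLaurent (q + Polynomial.X * f) * ((ld e 1 : RO ℤ) * w) := by
        have h5 : (ld e 1 : RO ℤ) * D.coeff S = toLaurent (Polynomial.X * f) := by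
          rw [hDS, LaurentPolynomial.T_zero, one_mul]
        rw [← h5, ← hVL]
        linear_combination (ld e 1 : RO ℤ) * hw
      have hu0 : ((T'⁻¹ : ℝ) : ℂ) ≠ 0 := by
        rw [Complex.ofReal_ne_zero]
        exact inv_ne_zero hT0.ne'
      have h5 := congrArg (SFH27.evU (Units.mk0 _ hu0)) h4
      rw [map_mul (SFH27.evU (Units.mk0 _ hu0)), SFH27.evU_toLaurent, SFH27.evU_toLaurent] at h5
      have h6 := (SFH27.eval_zero X.c1 (by rw [abs_of_pos hT0]; exact X.T1)).2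
      have h7 : (cpz (q + Polynomial.X * f)).eval ((Units.mk0 _ hu0 : ℂˣ) : ℂ) = 0 := h6
      rw [h7, zero_mul] at h5
      have h8 : (cpz q).eval ((T'⁻¹ : ℝ) : ℂ) = 0 := by
        have h9 : cpz q = cpz (q + Polynomial.X * f) - cpz (Polynomial.X * f) := by
          simp only [cpz, Polynomial.map_add]
          ring
        rw [h9, eval_sub, h6]
        have h10 : (cpz (Polynomial.X * f)).eval ((T'⁻¹ : ℝ) : ℂ) = 0 := h5
        rw [h10, sub_zero]
      exact not_root hR.loc hu X.T1 hineq h8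
    · exfalso
      rw [hFt, hVL, ← hq1] at h3
      exact hVne (sym_one hq0 hv0' hsym h3)
    · exfalso
      rw [hFt, hVL, ← hq1] at h3
      refine hVne (sym_one hq0 hv0' (t := 1 + t l) (fun k => ?_) h3)
      have h4 : ∀ m : ℤ, (1 + t l).coeff m = (1 : RO ℤ).coeff m + (t l).coeff m := fun m => rfl
      rw [h4, h4, hsym]
      congr 1
      have h5 : ∀ m : ℤ, (1 : RO ℤ).coeff m = if m = 0 then 1 else 0 := by
        intro m
        have h6 : (1 : RO ℤ) = AddMonoidAlgebra.single 0 1 := rfl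
        rw [h6, AddMonoidAlgebra.coeff_single, Finsupp.single_apply]
        by_cases hm : m = 0
        · rw [if_pos hm.symm, if_pos hm]
        · rw [if_neg (Ne.symm hm), if_neg hm]
      rw [h5, h5]
      by_cases hk : k = 0
      · rw [hk, neg_zero]
      · rw [if_neg hk, if_neg (by omega)]
    · obtain ⟨h4, h5, h6, h7, h8, h9, h10⟩ := h3
      refine ⟨by rw [← hFt, h4], b, e', h5, ?_, h6, h7, h8, h9, h10⟩
      intro h11
      have h12 := hQ.sp.bj
      rw [h11, map_zero] at h12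
      exact zero_ne_one h12
  obtain ⟨l0, hl0⟩ := hsn
  obtain ⟨-, b, e', h3, h4, h5, h6, h7, h8, h9⟩ := hmass1 l0 hl0
  by_cases hg2 : 2 ≤ g
  · obtain ⟨S1, S2, e1, e2, hm1, hm2, h10, h11⟩ := htwo hg2
    exact no_four hF4c hF3 hMc hD h2 hm1 hm2 h10 h11 h3 h4 h5 h6 h7 h8 h9 hv0
  have hg1 : g = 1 := by omega
  obtain ⟨S1, e1, hm1⟩ := hmut
  have him := face_three hF3c hMc hD h2 hm1 h3 h4 h5 h6 h7 h8 h9
  have hDSL : (ld e 1 : RO ℤ) * D.coeff S = toLaurent (Polynomial.X * f) := by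
    rw [hDS, LaurentPolynomial.T_zero, one_mul]
  obtain ⟨hh, hh1, hh2, hh3⟩ := hRe q f a T' X.ld ha0 ha1 X.root X.q0 hR.u X.T1
    (SFH27.eval_zero X.c1 (by rw [abs_of_pos hT0]; exact X.T1)).2 (by
      intro z hz
      obtain ⟨w, rfl⟩ := H93.exists_circle hz
      have h10 := him w
      rw [hVL, hDSL] at h10
      have e1' := H96.ev_T_mul (O := ℤ) w 0 (q + Polynomial.X * f)
      have e2' := H96.ev_T_mul (O := ℤ) w 0 (Polynomial.X * f)
      rw [LaurentPolynomial.T_zero, one_mul, zpow_zero, one_mul] at e1' e2'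
      rw [e1', e2'] at h10
      exact h10)
  have hmk : Mass (((snp phi S i0 G).card : ℕ) : RO ℤ) q f := by
    have h10 : ∑ l ∈ snp phi S i0 G, t l = (((snp phi S i0 G).card : ℕ) : RO ℤ) := by
      rw [Finset.sum_congr rfl fun l hl => (hmass1 l hl).1]
      simp
    rw [← h10]
    exact X.mass
  have hB := hIH (Module.finrank ℤ L') (by omega) T' P' L' phi' D' hD' hP' rfl
  have hr4 := hdg i0 h
  refine hNu j (snp phi S i0 G).card (Module.finrank ℤ L') (f.coeff 0) hh a T' hj ha0 ha1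
    (by linarith) X.T1 hu ?_ (by omega) hr1 hB.1 hB.2 hh1 hh2 (hh3 _ hmk)
  exact Finset.card_pos.mpr ⟨l0, hl0⟩

/-- Row OF_2. -/
theorem of2 (hOd : OdtS) (hOn : On1S) (hNu : OndS) (hRe : RecS) (hF3c : Fc3S) (hF4c : Fc4S)
    (hNw : NdwS) (hBg : BgrS) (hQs : QsgS) (hNd : Nd3S) (hMm : MmulS) (hNr : Nr3S) (hNb : NbzS)
    (hMc : McoS) (hF3 : F3S) : Of2S := by
  intro P L _ _ _ _ _ phi D S q f e a j g hFP hS hR ha2 hu hj hrk hIH hg hdg hmut htwo hall
    ⟨i0, h, c, n, G, fd, hsm⟩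
  by_contra hlt
  push Not at hlt
  exact of2_core hOd hOn hNu hRe hF3c hF4c hNw hBg hQs hNd hMm hNr hNb hMc hF3 phi D S q f e a j g
    hFP hR ha2 hu hj hrk hIH hg (fun i0 h => hdg.2 i0 h) hmut htwo hall fd hsm hlt

end Pool.Agent.B5.OFH29
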