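import Pool.Agent.Lib.MP_b5021c_nt.OF.H29.Ndw

/-!
# Board b5, chapter OF: at a load with a mutual partner, a mass with the denominator `d`
-/

namespace Pool.Agent.B5.OFH29.Dnm

open scoped LaurentPolynomial
open AddMonoidAlgebra Pool.Agent.B5.H71 Pool.Agent.B5 Pool.Agent.B5.OFH29

set_option linter.unusedSectionVars false

section

variable {O : Type} [CommRing O] [IsDomain O] [IsPrincipalIdealRing O] [Coef O]
    {P L : Type} [Fintype P] [DecidableEq P] [AddCommGroup L] [Module.Free ℤ L]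
    [Module.Finite ℤ L] {phi : L →+ (P → ℤ)} {D : AO O L} {S : L} {i0 : P} {eta : (RO O)ˣ}
    {h : co phi i0 S = 1} {c : RO O} {n : ℕ} {G : Fin n → AO O (Ker (co phi i0))} {l : Fin n}
    {b : Ker (co phi i0)} {j : P} {e : (RO O)ˣ} {hj : co (phK phi (co phi i0)) j b = 1}
    {q F : AO O (Ker (co (phK phi (co phi i0)) j))} {d : RO O}

/-- The three identities for the coefficients. -/
theorem threeD (hq : QC phi D S i0 eta h c n G l b j e hj q)
    (hqF : cst d * q = cst (c * (G l).coeff 0) * F) :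
    ∃ V' : AO O (Ker (co (phK phi (co phi i0)) j)),
    ∀ a2 : Ker (co (phK phi (co phi i0)) j),
      d * (D.coeff ((a2 : Ker (co phi i0)) : L) +
        (e : RO O) * D.coeff (((a2 : Ker (co phi i0)) : L) + (b : L))) = (F * V').coeff a2 ∧
      V'.coeff a2 = D.coeff ((a2 : Ker (co phi i0)) : L) +
        (eta : RO O) * D.coeff (((a2 : Ker (co phi i0)) : L) + S) ∧
      (e : RO O) * (D.coeff (((a2 : Ker (co phi i0)) : L) + (b : L)) +
        (eta : RO O) * D.coeff (((a2 : Ker (co phi i0)) : L) + (b : L) + S)) =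
        -(D.coeff ((a2 : Ker (co phi i0)) : L) +
          (eta : RO O) * D.coeff (((a2 : Ker (co phi i0)) : L) + S)) := by
  have hD := hq.fd.cc.dd
  set V' : AO O (Ker (co (phK phi (co phi i0)) j)) :=
    cst (c * (G l).coeff 0) * Uo phi i0 j G l with hV'
  refine ⟨V', fun a2 => ?_⟩
  have hprod : (∏ i ∈ Finset.univ.erase l, G i) =
      em (Ker (co (phK phi (co phi i0)) j)) (Uo phi i0 j G l) := by
    rw [Uo, map_prod]
    apply Finset.prod_congr rfl
    intro i hi
    rw [em_res (Ker (co (phK phi (co phi i0)) j)) (G i)]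
    intro a ha
    exact hq.sp.other i (Finset.ne_of_mem_erase hi) a ha
  have hV : cl (co phi i0) S h eta D = (1 - single b ((e⁻¹ : (RO O)ˣ) : RO O)) *
      em (Ker (co (phK phi (co phi i0)) j)) V' := by
    rw [hq.fd.eq, ← Finset.mul_prod_erase Finset.univ G (Finset.mem_univ l), hprod, hV', map_mul,
      em_cst, H71.cst_mul]
    conv_lhs => rw [hq.sp.eq]
    ring
  have hbinX : ∀ a ∈ supp (res (Ker (co phi i0)) D), co (phK phi (co phi i0)) j a = 0 ∨
      co (phK phi (co phi i0)) j a = 1 := fun a ha => hD.bin (a : L) ha j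
  set a1 : Ker (co phi i0) := (a2 : Ker (co phi i0)) with ha1
  have h3 : co (phK phi (co phi i0)) j a1 = 0 := a2.2
  have hem : (em (Ker (co (phK phi (co phi i0)) j)) V').coeff a1 = V'.coeff a2 :=
    em_coeff (Ker (co (phK phi (co phi i0)) j)) V' a2
  have e0 : (cl (co phi i0) S h eta D).coeff a1 = V'.coeff a2 := by
    rw [hV, sub_mul, one_mul, coeff_sub, Finsupp.sub_apply, coeff_single_mul_apply,
      em_coeff_not (Ker (co (phK phi (co phi i0)) j)) V' (-b + a1), mul_zero, sub_zero]
    · exact hem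
    · intro h2
      rw [mem_Ker, map_add, map_neg, hj] at h2
      omega
  have e1 : (cl (co phi i0) S h eta D).coeff (a1 + b) =
      -(((e⁻¹ : (RO O)ˣ) : RO O) * V'.coeff a2) := by
    have h4 : -b + (a1 + b) = a1 := by abel
    rw [hV, sub_mul, one_mul, coeff_sub, Finsupp.sub_apply, coeff_single_mul_apply,
      em_coeff_not (Ker (co (phK phi (co phi i0)) j)) V' (a1 + b), zero_sub, h4, hem]
    intro h2
    rw [mem_Ker, map_add, hj] at h2
    omega
  have e2 : d * (Xl phi D i0 b j hj e).coeff a2 = (F * V').coeff a2 := by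
    have h1 : cst d * Xl phi D i0 b j hj e = F * V' := by
      rw [hq.xe, ← mul_assoc, hqF, hV']
      ring
    rw [← h1, cst_mul_coeff]
  have f0 := H36.ndz_clc (co phi i0) S h eta D (fun a ha => hD.bin a ha i0) a1
  have f1 := H36.ndz_clc (co phi i0) S h eta D (fun a ha => hD.bin a ha i0) (a1 + b)
  have f2 := H36.ndz_clc (co (phK phi (co phi i0)) j) b hj e (res (Ker (co phi i0)) D) hbinX a2
  have f3 : (Xl phi D i0 b j hj e).coeff a2 = D.coeff (a1 : L) +
      (e : RO O) * D.coeff ((a1 : L) + (b : L)) := by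
    change (cl (co (phK phi (co phi i0)) j) b hj e (res (Ker (co phi i0)) D)).coeff a2 = _
    rw [f2, res_coeff, res_coeff]
    rfl
  have f0' : V'.coeff a2 = D.coeff (a1 : L) + (eta : RO O) * D.coeff ((a1 : L) + S) := by
    rw [← e0, f0]
  have f1' : D.coeff ((a1 : L) + (b : L)) + (eta : RO O) * D.coeff ((a1 : L) + (b : L) + S) =
      -(((e⁻¹ : (RO O)ˣ) : RO O) * V'.coeff a2) := by
    rw [← e1, f1]
    rfl
  refine ⟨by rw [← f3, e2], f0', ?_⟩
  rw [f1', mul_neg, Units.mul_inv_cancel_left, f0']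

/-- Facts about the exponents. -/
structure Ctx (phi : L →+ (P → ℤ)) (D : AO O L) (S : L) (i0 : P) (eta : (RO O)ˣ) (b : L) (j : P)
    (e : (RO O)ˣ) (d : RO O) (F V' : AO O (Ker (co (phK phi (co phi i0)) j))) : Prop where
  x : ∀ a2 : Ker (co (phK phi (co phi i0)) j), d * (D.coeff ((a2 : Ker (co phi i0)) : L) +
    (e : RO O) * D.coeff (((a2 : Ker (co phi i0)) : L) + b)) = (F * V').coeff a2
  v : ∀ a2 : Ker (co (phK phi (co phi i0)) j), V'.coeff a2 =
    D.coeff ((a2 : Ker (co phi i0)) : L) +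
      (eta : RO O) * D.coeff (((a2 : Ker (co phi i0)) : L) + S)
  y : ∀ a2 : Ker (co (phK phi (co phi i0)) j),
    (e : RO O) * (D.coeff (((a2 : Ker (co phi i0)) : L) + b) +
      (eta : RO O) * D.coeff (((a2 : Ker (co phi i0)) : L) + b + S)) =
      -(D.coeff ((a2 : Ker (co phi i0)) : L) +
        (eta : RO O) * D.coeff (((a2 : Ker (co phi i0)) : L) + S))
  bi : phi b i0 = 0
  bj : phi b j = 1
  bo : ∀ i, phi S i = 0 → phi b i = 0 ∨ phi b i = 1
  bU : b ∈ US eta S D
  vU : ∀ a ∈ supp V', ((a : Ker (co phi i0)) : L) ∈ US eta S D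
  vb : ∀ a ∈ supp V', ∀ i, phi S i = 0 → phi b i = 1 → phi ((a : Ker (co phi i0)) : L) i = 0
  fb : ∀ a ∈ supp F, ∀ i, phi S i = 0 → phi b i = 0 → phi ((a : Ker (co phi i0)) : L) i = 0

/-- The context. -/
theorem ctx (hV : VcoS) (hI : I2S) (hq : QC phi D S i0 eta h c n G l b j e hj q) (hd : d ≠ 0)
    (hqF : cst d * q = cst (c * (G l).coeff 0) * F) :
    ∃ V' : AO O (Ker (co (phK phi (co phi i0)) j)), Ctx phi D S i0 eta (b : L) j e d F V' := by
  obtain ⟨V', hV'⟩ := threeD hq hqF
  have hD := hq.fd.cc.dd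
  have hS := hq.fd.cc.ray
  have hv0 := hq.fd.cc.v0
  have bi : phi (b : L) i0 = 0 := b.2
  have bS : Bin phi S := hD.bin _ hS.1
  obtain ⟨-, v0, y0⟩ := hV' 0
  have z0 : (((0 : Ker (co (phK phi (co phi i0)) j)) : Ker (co phi i0)) : L) = 0 := rfl
  rw [z0, zero_add, zero_add] at y0
  have hb0 : D.coeff (b : L) + (eta : RO O) * D.coeff ((b : L) + S) ≠ 0 := by
    intro h0
    rw [h0, mul_zero] at y0
    exact hv0 (neg_eq_zero.mp y0.symm)
  -- outside `S` the exponents are binary
  have hbin : ∀ a : L, D.coeff a + (eta : RO O) * D.coeff (a + S) ≠ 0 → ∀ i, phi S i = 0 →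
      phi a i = 0 ∨ phi a i = 1 := by
    intro a ha i hi
    by_cases h1 : D.coeff a = 0
    · have h2 : D.coeff (a + S) ≠ 0 := by
        intro h2
        rw [h1, h2, mul_zero, add_zero] at ha
        exact ha rfl
      have h3 := hD.bin _ h2 i
      rw [map_add, Pi.add_apply, hi, add_zero] at h3
      exact h3
    · exact hD.bin _ h1 i
  refine ⟨V', ⟨fun a => (hV' a).1, fun a => (hV' a).2.1, fun a => (hV' a).2.2, bi, hq.sp.bj,
    hbin _ hb0, us_of hV hD hS h bi hb0, ?_, ?_, ?_⟩⟩
  · intro a ha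
    have h1 := (hV' a).2.1
    exact us_of hV hD hS h (a : Ker (co phi i0)).2 (by rw [← h1]; exact ha)
  · intro a ha i hi hbi
    have h1 := (hV' a).2.1
    have h2 : D.coeff ((a : Ker (co phi i0)) : L) +
        (eta : RO O) * D.coeff (((a : Ker (co phi i0)) : L) + S) ≠ 0 := by
      rw [← h1]
      exact ha
    have h3 := hbin _ h2 i hi
    have h4 := (hV' a).2.2
    have h5 : D.coeff (((a : Ker (co phi i0)) : L) + (b : L)) +
        (eta : RO O) * D.coeff (((a : Ker (co phi i0)) : L) + (b : L) + S) ≠ 0 := by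
      intro h6
      rw [h6, mul_zero] at h4
      exact h2 (neg_eq_zero.mp h4.symm)
    have h6 := hbin _ h5 i hi
    rw [map_add, Pi.add_apply, hbi] at h6
    omega
  · intro a ha i hi hbi
    have hcg : c * (G l).coeff 0 ≠ 0 := by
      intro h0
      apply hq.q0
      have h1 : cst d * q = 0 := by
        rw [hqF, h0, cst, single_zero, zero_mul]
      exact (mul_eq_zero.mp h1).resolve_left (by
        intro h1
        apply hd
        rw [cst, single_eq_zero] at h1
        exact h1)
    have haq : a ∈ supp q := by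
      change q.coeff a ≠ 0
      have h1 := congrArg (fun x => x.coeff a) hqF
      change (cst d * q).coeff a = (cst (c * (G l).coeff 0) * F).coeff a at h1
      rw [cst_mul_coeff, cst_mul_coeff] at h1
      intro h2
      rw [h2, mul_zero] at h1
      exact mul_ne_zero hcg ha h1.symm
    exact hI O P L phi D S i0 eta h c n G hq.fd l b j e hq.sp hj q hq.xe a haq i
      (by unfold OO; rw [Finset.mem_filter]; exact ⟨Finset.mem_univ _, hi⟩) hbi

/-- The coefficient at an exponent without ports outside `S` and `b`. -/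
theorem coeff_tau (hIn : Inj1S) (hFP : FP phi D) (hS : Ray D S) (h : co phi i0 S = 1)
    {b : L} {V' : AO O (Ker (co (phK phi (co phi i0)) j))}
    (hc : Ctx phi D S i0 eta b j e d F V') (a : Ker (co (phK phi (co phi i0)) j))
    (ha : ∀ i, phi S i = 0 → phi b i = 0 → phi ((a : Ker (co phi i0)) : L) i = 0) :
    (F * V').coeff a = F.coeff a * V'.coeff 0 := by
  have hu : UniqueAdd F.coeff.support V'.coeff.support a 0 := by
    intro t m ht hm hab
    rw [add_zero] at hab
    have ht' : t ∈ supp F := Finsupp.mem_support_iff.mp ht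
    have hm' : m ∈ supp V' := Finsupp.mem_support_iff.mp hm
    have hm0 : m = 0 := by
      obtain ⟨k, hk⟩ := (hIn O P L phi D hFP S hS).1 ((m : Ker (co phi i0)) : L) (by
        intro i hi
        rcases hc.bo i hi with h1 | h1
        · have h2 := hc.fb t ht' i hi h1
          have h3 := ha i hi h1
          have h4 : ((a : Ker (co phi i0)) : L) =
              ((t : Ker (co phi i0)) : L) + ((m : Ker (co phi i0)) : L) := by
            rw [← hab]
            rfl
          rw [h4, map_add, Pi.add_apply, h2, zero_add] at h3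
          exact h3
        · exact hc.vb m hm' i hi h1)
      have h5 : phi ((m : Ker (co phi i0)) : L) i0 = 0 := (m : Ker (co phi i0)).2
      have h6 : phi S i0 = 1 := h
      rw [hk, map_zsmul, Pi.smul_apply, h6, smul_eq_mul, mul_one] at h5
      rw [h5, zero_smul] at hk
      exact Subtype.ext (Subtype.ext hk)
    refine ⟨?_, hm0⟩
    rw [hm0, add_zero] at hab
    exact hab
  have h1 := AddMonoidAlgebra.coeff_mul_add_of_uniqueAdd hu
  rw [add_zero] at h1
  exact h1

/-- (C2) if `V_0` does not divide `D_S` then the mass has no exponent outside `US`. -/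
theorem supp_in (hF1 : F1S) (hM : McoS) (hR : RaySpanS) (hE : E2S) (hIn : Inj1S)
    (hFP : FP phi D) (h2 : 2 ≤ Module.finrank ℤ L) (hS : Ray D S) (h : co phi i0 S = 1)
    {b : L} {V' : AO O (Ker (co (phK phi (co phi i0)) j))}
    (hc : Ctx phi D S i0 eta b j e d F V')
    (hmut : ∀ R, Ray D R → R ∉ US eta S D → ∃ e2 : (RO O)ˣ, Mut D S R eta e2)
    (hnd : ¬ (D.coeff 0 + (eta : RO O) * D.coeff S) ∣ d * D.coeff S)
    (hv0 : D.coeff 0 + (eta : RO O) * D.coeff S ≠ 0) :
    ∀ a ∈ supp F, ((a : Ker (co phi i0)) : L) ∈ US eta S D := by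
  intro a ha
  by_contra hU
  have hD := hFP.dd
  have bS : Bin phi S := hD.bin _ hS.1
  have hi0 : phi S i0 = 1 := h
  have v00 : V'.coeff 0 = D.coeff 0 + (eta : RO O) * D.coeff S := by
    have h1 := hc.v 0
    have z0 : (((0 : Ker (co (phK phi (co phi i0)) j)) : Ker (co phi i0)) : L) = 0 := rfl
    rw [z0, zero_add] at h1
    exact h1
  have hfb := hc.fb a ha
  have hco := coeff_tau hIn hFP hS h hc a hfb
  have hne : (F * V').coeff a ≠ 0 := by
    rw [hco, v00]
    exact mul_ne_zero ha hv0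
  rw [← hc.x a] at hne
  replace hne := right_ne_zero_of_mul hne
  set A : L := ((a : Ker (co phi i0)) : L) with hA
  have hAi : phi A i0 = 0 := (a : Ker (co phi i0)).2
  -- an exponent of `D`
  obtain ⟨β, hβ, hβU, hβi, hβo⟩ : ∃ β : L, D.coeff β ≠ 0 ∧ β ∉ US eta S D ∧ phi β i0 = 0 ∧
      ∀ i, phi S i = 0 → phi b i = 0 → phi β i = 0 := by
    by_cases h1 : D.coeff A = 0
    · refine ⟨A + b, ?_, ?_, ?_, ?_⟩
      · intro h3
        rw [h1, h3, mul_zero, add_zero] at hne
        exact hne rfl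
      · intro h3
        apply hU
        have h4 := Submodule.sub_mem _ h3 hc.bU
        rwa [add_sub_cancel_right] at h4
      · rw [map_add, Pi.add_apply, hAi, hc.bi, add_zero]
      · intro i hi hbi
        rw [map_add, Pi.add_apply, hfb i hi hbi, hbi, add_zero]
    · exact ⟨A, h1, hU, hAi, hfb⟩
  have bβ := hD.bin _ hβ
  have hβS : ∀ i, phi β i = 0 ∨ phi S i = 0 := by
    intro i
    by_contra h3
    push Not at h3
    have h4 := (bβ i).resolve_left h3.1
    have h5 := (bS i).resolve_left h3.2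
    exact hβ ((hF1 O P L phi D S eta hD.inj hD.bin bS hS.2.1 β hβU).1 ⟨i, h4, h5⟩
      ⟨i0, hβi, hi0⟩)
  have hβ0 : β ≠ 0 := by
    rintro rfl
    exact hβU (Submodule.zero_mem _)
  -- a ray `R` inside `β`
  obtain ⟨-, hthin, -⟩ := hE O P L phi D hD h2
  obtain ⟨lam, hlam, -⟩ := hD.st.2
  obtain ⟨m, hm, hmem⟩ := (hR O L D ⟨lam, hlam⟩ hthin).1 β hβ hβ0
  have hmem2 := (clos_sub phi {r | Ray D r} (fun r hr p => by
    rcases hD.bin r hr.1 p with h3 | h3 <;> omega) {p | phi β p = 0} (m • β) hmem).2 (by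
    intro p hp
    have hp' : phi β p = 0 := hp
    rw [map_nsmul, Pi.smul_apply, hp', smul_zero])
  obtain ⟨R, hRr, hRU, hRβ⟩ : ∃ R, Ray D R ∧ R ∉ US eta S D ∧ ∀ p, phi β p = 0 → phi R p = 0 := by
    by_contra hcon
    push Not at hcon
    apply hβU
    apply us_nsmul hm
    have h3 : AddSubmonoid.closure {r | r ∈ {r | Ray D r} ∧ ∀ p ∈ {p | phi β p = 0},
        phi r p = 0} ≤ (US eta S D).toAddSubmonoid := by
      rw [AddSubmonoid.closure_le]
      intro r hr
      by_contra h4
      obtain ⟨p, hp1, hp2⟩ := hcon r hr.1 h4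
      exact hp2 (hr.2 p hp1)
    exact h3 hmem2
  obtain ⟨e2, hm2⟩ := hmut R hRr hRU
  obtain ⟨hdis, hm3, -, -⟩ := hM O P L phi D S R eta e2 hD.inj hD.bin hm2
  have bR : Bin phi R := hD.bin _ hRr.1
  have hRi : phi R i0 = 0 := hRβ i0 hβi
  have hRS : ∀ i, phi R i = 0 ∨ phi S i = 0 := fun i => (hdis i).symm
  have hRo : ∀ i, phi S i = 0 → phi b i = 0 → phi R i = 0 := fun i hi hb => hRβ i (hβo i hi hb)
  apply hnd
  have hfin : ∀ x : RO O, (e2 : RO O) * D.coeff R = (eta : RO O) * D.coeff S →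
      d * D.coeff R = x * (D.coeff 0 + (eta : RO O) * D.coeff S) →
      (D.coeff 0 + (eta : RO O) * D.coeff S) ∣ d * D.coeff S := by
    intro x h3 h4
    refine ⟨((eta⁻¹ : (RO O)ˣ) : RO O) * ((e2 : RO O) * x), ?_⟩
    calc d * D.coeff S = d * (((eta⁻¹ : (RO O)ˣ) : RO O) * ((eta : RO O) * D.coeff S)) := by
          rw [Units.inv_mul_cancel_left]
      _ = ((eta⁻¹ : (RO O)ˣ) : RO O) * ((e2 : RO O) * (d * D.coeff R)) := by
          rw [← h3]
          ring
      _ = _ := by
          rw [h4]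
          ring
  rcases bR j with hRj | hRj
  · -- the representative is `R`
    have ho : ∀ i, phi S i = 0 → phi b i = 0 → phi R i = 0 := hRo
    have h3 := hc.x ⟨⟨R, hRi⟩, hRj⟩
    rw [coeff_tau hIn hFP hS h hc ⟨⟨R, hRi⟩, hRj⟩ ho, v00] at h3
    change d * (D.coeff R + (e : RO O) * D.coeff (R + b)) = _ at h3
    have h4 : D.coeff (R + b) = 0 := by
      by_contra h5
      have h6 := hD.bin _ h5
      have h7 : ∃ p, phi R p = 1 := by
        by_contra h8
        push Not at h8
        apply hRr.2.1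
        apply hD.inj
        funext p
        rw [(bR p).resolve_right (h8 p), map_zero]
        rfl
      obtain ⟨p, hp⟩ := h7
      have h8 := h6 p
      have hSp : phi S p = 0 := (hRS p).resolve_left (by omega)
      have hbp : phi b p = 1 := by
        rcases hc.bo p hSp with h9 | h9
        · have := hRo p hSp h9
          omega
        · exact h9
      rw [map_add, Pi.add_apply] at h8
      omega
    rw [h4, mul_zero, add_zero] at h3
    exact hfin _ hm3 h3
  · -- the representative is `R - b`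
    have hR'i : phi (R - b) i0 = 0 := by
      rw [map_sub, Pi.sub_apply, hRi, hc.bi, sub_zero]
    have hR'j : phi (R - b) j = 0 := by
      rw [map_sub, Pi.sub_apply, hRj, hc.bj, sub_self]
    have ho : ∀ i, phi S i = 0 → phi b i = 0 → phi (R - b) i = 0 := by
      intro i hi hb
      rw [map_sub, Pi.sub_apply, hRo i hi hb, hb, sub_zero]
    have h3 := hc.x ⟨⟨R - b, hR'i⟩, hR'j⟩
    rw [coeff_tau hIn hFP hS h hc ⟨⟨R - b, hR'i⟩, hR'j⟩ ho, v00] at h3
    change d * (D.coeff (R - b) + (e : RO O) * D.coeff (R - b + b)) = _ at h3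
    rw [sub_add_cancel] at h3
    have h4 : D.coeff (R - b) = 0 := by
      by_contra h5
      have h6 := hD.bin _ h5
      obtain ⟨k, hk⟩ := (hIn O P L phi D hFP S hS).1 (R - b) (by
        intro i hi
        have h7 := h6 i
        rw [map_sub, Pi.sub_apply] at h7 ⊢
        have h8 := bR i
        rcases hc.bo i hi with h9 | h9
        · have := hRo i hi h9
          omega
        · omega)
      rw [hk, map_zsmul, Pi.smul_apply, hi0, smul_eq_mul, mul_one] at hR'i
      rw [hR'i, zero_smul, sub_eq_zero] at hk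
      rw [hk] at hRU
      exact hRU hc.bU
    rw [h4, zero_add] at h3
    refine hfin (((e⁻¹ : (RO O)ˣ) : RO O) * F.coeff ⟨⟨R - b, hR'i⟩, hR'j⟩) hm3 ?_
    rw [mul_assoc, ← h3, mul_left_comm d, Units.inv_mul_cancel_left]

/-- OF_NDW with a denominator. -/
theorem ndwd (hF1 : F1S) (hM : McoS) (hR : RaySpanS) (hE : E2S) (hIn : Inj1S) (hV : VcoS)
    (hI : I2S) (hFP : FP phi D) (hq : QC phi D S i0 eta h c n G l b j e hj q) (hd : d ≠ 0)
    (hqF : cst d * q = cst (c * (G l).coeff 0) * F) (ht0 : F.coeff 0 ≠ 0) {S1 : L}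
    {e1 : (RO O)ˣ} (hmut : Mut D S S1 eta e1)
    (hall : ∀ R, Ray D R → R ∉ US eta S D → ∃ e2 : (RO O)ˣ, Mut D S R eta e2) :
      (D.coeff 0 + (eta : RO O) * D.coeff S) ∣ d * D.coeff S ∨
      d * D.coeff 0 = F.coeff 0 * (D.coeff 0 + (eta : RO O) * D.coeff S) ∨
      d * D.coeff 0 = (d + F.coeff 0) * (D.coeff 0 + (eta : RO O) * D.coeff S) ∨
      (F.coeff 0 = d ∧ Bin phi (b : L) ∧ (∀ i, phi (b : L) i = 0 ∨ phi S i = 0) ∧
        (e : RO O) * D.coeff (b : L) = (eta : RO O) * D.coeff S ∧
        (eta : RO O) * (e : RO O) * D.coeff (S + (b : L)) =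
          -(D.coeff 0 + 2 * ((eta : RO O) * D.coeff S)) ∧
        (∀ a : L, (∀ i, phi a i = 0 ∨ (phi S i = 0 ∧ phi (b : L) i = 0)) → a ∉ US eta S D →
          D.coeff a + (eta : RO O) * D.coeff (a + S) = 0 ∧
          D.coeff a + (e : RO O) * D.coeff (a + (b : L)) = 0 ∧
          D.coeff (a + (b : L)) + (eta : RO O) * D.coeff (a + (b : L) + S) = 0) ∧
        ∀ (S2 : L) (e2 : (RO O)ˣ), Mut D S S2 eta e2 → ∀ i, phi (b : L) i = 0 ∨ phi S2 i = 0) := by
  have hD := hq.fd.cc.dd
  have hS := hq.fd.cc.ray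
  have hv0 := hq.fd.cc.v0
  obtain ⟨V', hc⟩ := ctx (F := F) hV hI hq hd hqF
  by_cases hnd : (D.coeff 0 + (eta : RO O) * D.coeff S) ∣ d * D.coeff S
  · exact Or.inl hnd
  right
  have hFU := supp_in hF1 hM hR hE hIn hFP hq.fd.cc.two hS h hc hall hnd hv0
  have hi0 : phi S i0 = 1 := h
  set t : RO O := F.coeff 0 with ht
  have v00 : V'.coeff 0 = D.coeff 0 + (eta : RO O) * D.coeff S := by
    have h1 := hc.v 0
    have z0 : (((0 : Ker (co (phK phi (co phi i0)) j)) : Ker (co phi i0)) : L) = 0 := rfl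
    rw [z0, zero_add] at h1
    exact h1
  -- exponents outside `US`
  have hout : ∀ a : L, phi a i0 = 0 → phi a j = 0 → a ∉ US eta S D →
      D.coeff a + (e : RO O) * D.coeff (a + (b : L)) = 0 := by
    intro a h1 h2 hU
    have h3 := hc.x ⟨⟨a, h1⟩, h2⟩
    change d * (D.coeff a + (e : RO O) * D.coeff (a + (b : L))) = _ at h3
    refine (mul_eq_zero.mp (h3.trans ?_)).resolve_left hd
    by_contra h4
    have h5 : (⟨⟨a, h1⟩, h2⟩ : Ker (co (phK phi (co phi i0)) j)) ∈ (F * V').coeff.support :=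
      Finsupp.mem_support_iff.mpr h4
    classical
    obtain ⟨x, hx, y, hy, hxy⟩ := Finset.mem_add.mp
      (AddMonoidAlgebra.support_coeff_mul_subset _ _ h5)
    apply hU
    have h6 : a = ((x : Ker (co phi i0)) : L) + ((y : Ker (co phi i0)) : L) := by
      have h7 := congrArg (fun w : Ker (co (phK phi (co phi i0)) j) =>
        ((w : Ker (co phi i0)) : L)) hxy
      exact h7.symm
    rw [h6]
    exact Submodule.add_mem _ (hFU x (Finsupp.mem_support_iff.mp hx))
      (hc.vU y (Finsupp.mem_support_iff.mp hy))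
  have x0 : d * (D.coeff 0 + (e : RO O) * D.coeff (b : L)) =
      t * (D.coeff 0 + (eta : RO O) * D.coeff S) := by
    have h1 := hc.x 0
    have z0 : (((0 : Ker (co (phK phi (co phi i0)) j)) : Ker (co phi i0)) : L) = 0 := rfl
    rw [coeff_tau hIn hFP hS h hc 0 (by intro i _ _; rw [z0, map_zero]; rfl), v00, z0,
      zero_add] at h1
    exact h1
  have y0 : (e : RO O) * (D.coeff (b : L) + (eta : RO O) * D.coeff ((b : L) + S)) =
      -(D.coeff 0 + (eta : RO O) * D.coeff S) := by
    have h1 := hc.y 0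
    have z0 : (((0 : Ker (co (phK phi (co phi i0)) j)) : Ker (co phi i0)) : L) = 0 := rfl
    rw [z0, zero_add, zero_add] at h1
    exact h1
  by_cases hDb : D.coeff (b : L) = 0
  · left
    rw [hDb, mul_zero, add_zero] at x0
    exact x0
  by_cases hDbS : D.coeff ((b : L) + S) = 0
  · right
    left
    rw [hDbS, mul_zero, add_zero] at y0
    linear_combination x0 - d * y0
  right
  right
  have bb : Bin phi (b : L) := hD.bin _ hDb
  have bS : Bin phi S := hD.bin _ hS.1
  have bbS := hD.bin _ hDbS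
  have disb : ∀ i, phi (b : L) i = 0 ∨ phi S i = 0 := by
    intro i
    have q1 := bb i
    have q2 := bS i
    have q3 := bbS i
    simp only [map_add, Pi.add_apply] at q3
    omega
  have hb0 : (b : L) ≠ 0 := by
    intro h5
    have h6 := hc.bj
    rw [h5, map_zero] at h6
    exact zero_ne_one h6
  -- a mutual partner
  have key : ∀ (S2 : L) (e2 : (RO O)ˣ), Mut D S S2 eta e2 →
      (∀ i, phi (b : L) i = 0 ∨ phi S2 i = 0) ∧ phi S2 i0 = 0 ∧ phi S2 j = 0 := by
    intro S2 e2 hmu
    obtain ⟨hdis, hm1, hm2, -⟩ := hM O P L phi D S S2 eta e2 hD.inj hD.bin hmu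
    have b1 : Bin phi S2 := hD.bin _ hmu.r1.1
    have hS1i : phi S2 i0 = 0 := (hdis i0).resolve_left (by omega)
    have hjS1 : phi S2 j = 0 := by
      by_contra h5
      have h6 : phi S2 j = 1 := (b1 j).resolve_left h5
      have h7 : S2 - (b : L) ∉ US eta S D := by
        intro h8
        apply hmu.m0
        have h9 := Submodule.add_mem _ h8 hc.bU
        rwa [sub_add_cancel] at h9
      have h8 := hout (S2 - (b : L)) (by rw [map_sub, Pi.sub_apply, hS1i, hc.bi, sub_zero])
        (by rw [map_sub, Pi.sub_apply, h6, hc.bj, sub_self]) h7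
      rw [sub_add_cancel] at h8
      have hne : D.coeff (S2 - (b : L)) ≠ 0 := by
        intro h9
        rw [h9, zero_add] at h8
        exact (mul_ne_zero e.ne_zero hmu.r1.1) h8
      obtain ⟨-, hS10, lam, hlam, hpos⟩ := hmu.r1
      by_cases h9 : (b : L) = S2
      · exact hmu.m0 (h9 ▸ hc.bU)
      · have h10 : 0 < lam (b : L) := hpos _ hDb hb0 h9
        have h11 : 0 < lam (S2 - (b : L)) := hpos _ hne (sub_ne_zero.mpr (Ne.symm h9)) (by
          intro h11
          exact hb0 (sub_eq_self.mp h11))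
        rw [map_sub, hlam] at h11
        omega
    have x1 := hout S2 hS1i hjS1 hmu.m0
    have hne : D.coeff (S2 + (b : L)) ≠ 0 := by
      intro h7
      rw [h7, mul_zero, add_zero] at x1
      exact hmu.r1.1 x1
    have bb1 := hD.bin _ hne
    refine ⟨fun i => ?_, hS1i, hjS1⟩
    have q1 := bb i
    have q2 := b1 i
    have q3 := bb1 i
    simp only [map_add, Pi.add_apply] at q3
    omega
  -- exponents disjoint from `S` and `b`
  have hfree : ∀ a : L, (∀ i, phi a i = 0 ∨ (phi S i = 0 ∧ phi (b : L) i = 0)) →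
      a ∉ US eta S D →
      D.coeff a + (eta : RO O) * D.coeff (a + S) = 0 ∧
      D.coeff a + (e : RO O) * D.coeff (a + (b : L)) = 0 ∧
      D.coeff (a + (b : L)) + (eta : RO O) * D.coeff (a + (b : L) + S) = 0 := by
    intro a ha hU
    have hai : phi a i0 = 0 := (ha i0).resolve_right (by rw [hi0]; simp)
    have haj : phi a j = 0 := (ha j).resolve_right (by rw [hc.bj]; simp)
    refine ⟨?_, hout a hai haj hU, ?_⟩
    · apply (hF1 O P L phi D S eta hD.inj hD.bin bS hS.2.1 a hU).2
      intro i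
      rcases ha i with h1 | h1
      · exact Or.inl h1
      · exact Or.inr h1.1
    · apply (hF1 O P L phi D S eta hD.inj hD.bin bS hS.2.1 (a + (b : L)) (by
        intro h1
        apply hU
        have h2 := Submodule.sub_mem _ h1 hc.bU
        rwa [add_sub_cancel_right] at h2)).2
      intro i
      have h1 := ha i
      have h2 := disb i
      rw [map_add, Pi.add_apply]
      omega
  obtain ⟨hdis, hm1, hm2, -⟩ := hM O P L phi D S S1 eta e1 hD.inj hD.bin hmut
  have b1 : Bin phi S1 := hD.bin _ hmut.r1.1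
  obtain ⟨disb1, hS1i, hjS1⟩ := key S1 e1 hmut
  obtain ⟨s1, s2, s3⟩ := hfree S1 (by
    intro i
    have h1 := hdis i
    have h2 := disb1 i
    omega) hmut.m0
  -- (C5)
  have ht1 : t = d := by
    by_contra htn
    have c1 : d * (e : RO O) * (D.coeff (b : L) + (e1 : RO O) * D.coeff ((b : L) + S1)) =
        (t - d) * (D.coeff 0 + (eta : RO O) * D.coeff S) := by
      rw [add_comm (b : L) S1]
      linear_combination x0 + d * (e1 : RO O) * s2 - d * hm1
    have c2 : d * (e : RO O) * (eta : RO O) *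
        (D.coeff ((b : L) + S) + (e1 : RO O) * D.coeff ((b : L) + S + S1)) =
        -(t * (D.coeff 0 + (eta : RO O) * D.coeff S)) := by
      have h5 : (b : L) + S + S1 = S1 + (b : L) + S := by abel
      rw [h5]
      linear_combination d * y0 - x0 + d * (e : RO O) * (e1 : RO O) * s3 -
        d * (e1 : RO O) * s2 + d * hm1
    have m1 : (b : L) ∈ US e1 S1 D := by
      by_contra h5
      have h6 := (hF1 O P L phi D S1 e1 hD.inj hD.bin b1 hmut.r1.2.1 _ h5).2 disb1
      rw [h6, mul_zero] at c1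
      exact (mul_ne_zero (sub_ne_zero.mpr htn) hv0) c1.symm
    have m2 : (b : L) + S ∈ US e1 S1 D := by
      by_contra h5
      have h6 := (hF1 O P L phi D S1 e1 hD.inj hD.bin b1 hmut.r1.2.1 _ h5).2 (by
        intro i
        have q1 := disb1 i
        have q2 := hdis i
        simp only [map_add, Pi.add_apply]
        omega)
      rw [h6, mul_zero] at c2
      exact (neg_ne_zero.mpr (mul_ne_zero ht0 hv0)) c2.symm
    apply hmut.m1
    have h5 := Submodule.sub_mem _ m2 m1
    rwa [add_sub_cancel_left] at h5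
  have x1 : D.coeff 0 + (e : RO O) * D.coeff (b : L) =
      D.coeff 0 + (eta : RO O) * D.coeff S := by
    rw [ht1] at x0
    exact mul_left_cancel₀ hd x0
  refine ⟨ht1, bb, disb, ?_, ?_, hfree, fun S2 e2 hmu => (key S2 e2 hmu).1⟩
  · linear_combination x1
  · rw [add_comm S (b : L)]
    linear_combination y0 - x1

end

end Pool.Agent.B5.OFH29.Dnm

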