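import Pool.Agent.Lib.MP_b5021c_nt.IfaceOF
import Pool.Agent.Lib.MP_b5021c_nt.SF.H27.Bas
import Pool.Agent.Lib.MP_b5021c_nt.KE.H96.Ray

/-!
# Board b5, chapter OF: preparation for OF_1 and OF_2
-/

namespace Pool.Agent.B5.OFH29

open scoped LaurentPolynomial
open Polynomial Pool.Agent.B5
open Pool.Agent.MP_b5021c_nt (nz)

set_option linter.unusedSectionVars false

section

variable {P L : Type} [Fintype P] [DecidableEq P] [AddCommGroup L] [Module.Free ℤ L]
  [Module.Finite ℤ L] {phi : L →+ (P → ℤ)} {D : AO ℤ L} {S : L} {i0 : P} {eta : (RO ℤ)ˣ}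
  {h : co phi i0 S = 1} {c : RO ℤ} {n : ℕ} {G : Fin n → AO ℤ (Ker (co phi i0))}
  {q f : ℤ[X]}

/-- The data of a load of type B with a big factor. -/
structure Prp (phi : L →+ (P → ℤ)) (D : AO ℤ L) (S : L) (i0 : P) (eta : (RO ℤ)ˣ)
    (h : co phi i0 S = 1) (c : RO ℤ) (n : ℕ) (G : Fin n → AO ℤ (Ker (co phi i0))) (q f : ℤ[X])
    (a T' : ℝ) (s W : ℂ[X]) (t : Fin n → RO ℤ) : Prop where
  ld : LDz q f
  q0 : q.coeff 0 = 1
  root : (cpz q).eval (a : ℂ) = 0
  D0 : D.coeff 0 = LaurentPolynomial.T 0 * toLaurent q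
  DS : (eta : RO ℤ) * D.coeff S = LaurentPolynomial.T 0 * toLaurent (X * f)
  c1 : C1D q f T' s W
  T1 : 1 < T'
  mc : M c = 1
  big : ∃ (P' L' : Type) (_ : Fintype P') (_ : DecidableEq P') (_ : AddCommGroup L')
        (_ : Module.Free ℤ L') (_ : Module.Finite ℤ L') (phi' : L' →+ (P' → ℤ)) (D' : AO ℤ L'),
        DD phi' D' ∧ ClassP T' (D'.coeff 0) ∧ 1 ≤ Module.finrank ℤ L' ∧
        Module.finrank ℤ L' < Module.finrank ℤ L ∧
        rk (supp (cl (co phi i0) S h eta D)) ≤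
          Module.finrank ℤ L' + (snp phi S i0 G).card
  qc : ∀ l ∈ snp phi S i0 G, ∃ (b : Ker (co phi i0)) (j : P) (e : (RO ℤ)ˣ)
        (hj : co (phK phi (co phi i0)) j b = 1)
        (Q F : AO ℤ (Ker (co (phK phi (co phi i0)) j))),
          QC phi D S i0 eta h c n G l b j e hj Q ∧ Q = cst (c * (G l).coeff 0) * F ∧ NnT F ∧
            F.coeff 0 = t l
  ne : ∀ l ∈ snp phi S i0 G, t l ≠ 0
  nn : ∀ l ∈ snp phi S i0 G, NnR (t l)
  mass : Mass (∑ l ∈ snp phi S i0 G, t l) q f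

theorem prp (hOd : OdtS) (hOn : On1S) (hBg : BgrS) (hQs : QsgS) (hNd : Nd3S) (hMm : MmulS)
    {e : (RO ℤ)ˣ} {a : ℝ} (hFP : FP phi D) (hR : RN D S q f e a)
    (fd : FD phi D S i0 (ld e 1) h c n G) (hb : ∃ i, 1 < M ((G i).coeff 0)) :
    ∃ (T' : ℝ) (s W : ℂ[X]) (t : Fin n → RO ℤ),
      Prp phi D S i0 (ld e 1) h c n G q f a T' s W t := by
  obtain ⟨hLD, hq0, hroot, hcP, hD0, hDS, hv0, T', s, W, c1, hP1, hM1⟩ :=
    hOd P L phi D S q f e a hFP.dd fd.cc.ray hR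
  obtain ⟨m1, m2, -⟩ := hMm ℤ
  have hG0 : ∀ i, (G i).coeff 0 ≠ 0 := fun i => (fd.st i).1
  -- `T' > 1`
  have h0 := hOn q f a T' s W 0 0 hLD c1 hR.loc.a0 hR.loc.a1 hroot hq0 hR.u
    (fun z => by simp) (by
      intro z
      rw [map_zero, Complex.zero_re, zero_mul]
      have e1 : (cpz (q + X * f)).eval (z : ℂ) = (cpz q).eval (z : ℂ) +
          (z : ℂ) * (cpz f).eval (z : ℂ) := by
        simp only [cpz, Polynomial.map_add, Polynomial.map_mul, Polynomial.map_X, eval_add,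
          eval_mul, eval_X]
      have e2 : (cpz (q - X * f)).eval (z : ℂ) = (cpz q).eval (z : ℂ) -
          (z : ℂ) * (cpz f).eval (z : ℂ) := by
        simp only [cpz, Polynomial.map_sub, Polynomial.map_mul, Polynomial.map_X, eval_sub,
          eval_mul, eval_X]
      have e3 : ‖(z : ℂ) * (cpz f).eval (z : ℂ)‖ ≤ ‖(cpz q).eval (z : ℂ)‖ := by
        rw [norm_mul, Circle.norm_coe, one_mul]
        exact hLD.le _ (Circle.norm_coe z)
      rw [e1, e2]
      set x := (cpz q).eval (z : ℂ)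
      set y := (z : ℂ) * (cpz f).eval (z : ℂ)
      have e4 : ((x - y) * (starRingEnd ℂ) (x + y)).re = ‖x‖ ^ 2 - ‖y‖ ^ 2 := by
        rw [Complex.sq_norm, Complex.sq_norm, Complex.normSq_apply, Complex.normSq_apply]
        simp only [Complex.mul_re, Complex.sub_re, Complex.sub_im, map_add, Complex.add_re,
          Complex.add_im, Complex.conj_re, Complex.conj_im]
        ring
      rw [e4]
      nlinarith [norm_nonneg x, norm_nonneg y]) (by
      have h1 : (0 : RO ℤ).coeff 0 = 0 := rfl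
      have h2 : (0 : RO ℤ).coeff 1 = 0 := rfl
      rw [h1, h2]
      simp)
  have hT1 : 1 < T' := by
    rcases lt_or_eq_of_le h0.1 with h1 | h1
    · exact h1
    · exfalso
      have h2 := hM1 (by rw [← h1, abs_one])
      obtain ⟨i, hi⟩ := hb
      have h3 := H56.one_lt_prod hMm Finset.univ (fun k => (G k).coeff 0) hG0 i
        (Finset.mem_univ _) hi
      rw [fd.v00, m1 _ _ fd.c0 (Finset.prod_ne_zero_iff.mpr fun i _ => hG0 i)] at h2
      have h4 := m2 c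
      nlinarith
  have habs : |T'| = T' := abs_of_pos (by linarith)
  have hP2 := hP1 (by rw [habs]; exact hT1)
  rw [habs] at hP2
  obtain ⟨hMc, hbig⟩ := hBg P L phi D S i0 (ld e 1) h c n G T' hFP fd hP2 hb
  have hV : D.coeff 0 + (ld e 1 : RO ℤ) * D.coeff S =
      LaurentPolynomial.T 0 * toLaurent (q + X * f) := by
    rw [hD0, hDS, map_add, mul_add]
  obtain ⟨t, ht1, ht2⟩ := hQs ℤ P L phi D S i0 (ld e 1) h c n G fd hMc 0 (q + X * f) hV
    (SFH27.no_double hNd hLD c1 (by rw [habs]; exact hT1))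
  have hMass : Mass (∑ l ∈ snp phi S i0 G, t l) q f := SFH27.mass_of _ t hD0 hV ht2
  refine ⟨T', s, W, t, hLD, hq0, hroot, hD0, hDS, c1, hT1, hMc, hbig, ?_, ?_, ?_, hMass⟩
  · intro l hl
    obtain ⟨b, j, e', hj, Q, F, h1, h2, h3, h4, -, -⟩ := ht1 l hl
    exact ⟨b, j, e', hj, Q, F, h1, h2, h3, h4⟩
  · intro l hl
    obtain ⟨-, -, -, -, -, -, -, -, -, -, h1, -⟩ := ht1 l hl
    exact h1
  · intro l hl
    obtain ⟨-, -, -, -, -, -, -, -, -, -, -, h1⟩ := ht1 l hl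
    exact h1

end

end Pool.Agent.B5.OFH29
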